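import Pool.Agent.Work.MP_a6e60d_ag.Def.Sub

/-!
MP_a6e60d_ag, definitions: DG algebras, right DG modules, DG bimodules, perfect DG modules, smooth
and finite-dimensional DG algebras.
-/

open CategoryTheory

attribute [-instance] CategoryTheory.catToReflQuiver

universe v u u' t

namespace FdDG

open CochainComplex.HomComplex

variable {k : Type t} [CommRing k]

/-- A DG algebra over k: a complex of k-modules with an associative product satisfying the Leibniz
rule, and a unit. -/
structure DGAlg (k : Type t) [CommRing k] where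
  /-- the underlying complex -/
  K : Cx.{v} k
  /-- the product -/
  mul : Pairing K K K
  /-- the unit -/
  one : K.X 0
  assoc : Assoc mul mul mul mul
  one_mul : LeftUnit mul one
  mul_one : RightUnit mul one

/-- the total dimension of R is finite -/
def DGAlg.IsFinDim (R : DGAlg.{v} k) : Prop :=
  Module.Finite k (DirectSum ℤ fun n => R.K.X n)

/-- A right DG module over R: a complex of k-modules with a right action of R satisfying the
Leibniz rule. -/
structure DGMod (R : DGAlg.{v} k) where
  /-- the underlying complex -/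
  K : Cx.{v} k
  /-- the action -/
  act : Pairing K R.K K
  assoc : Assoc act act R.mul act
  act_one : RightUnit act R.one

/-- A DG bimodule over R: a right DG module with a left action of R commuting with the right
action. -/
structure DGBimod (R : DGAlg.{v} k) extends DGMod R where
  /-- the left action -/
  lact : Pairing R.K K K
  lassoc : Assoc R.mul lact lact lact
  one_lact : LeftUnit lact R.one
  lact_act : Assoc lact act act lact

/-- a complex of k-modules as a cochain complex in the category of k-modules -/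
def Cx.toCC (A : Cx.{v} k) : CochainComplex (ModuleCat.{v} k) ℤ where
  X := A.X
  d n m := ModuleCat.ofHom (A.d n m)
  shape n m h := ModuleCat.hom_ext (A.shape n m h)
  d_comp_d' n m l _ _ := ModuleCat.hom_ext (LinearMap.ext fun x => A.d_d n m l x)

/-- homogeneous maps of degree n -/
abbrev Cx.Map (A B : Cx.{v} k) (n : ℤ) : Type v := Cochain A.toCC B.toCC n

/-- the value of a morphism of modules -/
def mval {M N : ModuleCat.{v} k} (f : M ⟶ N) (x : M) : N := f.hom x

/-- the value of a homogeneous map -/
def val {A B : Cx.{v} k} {n p q : ℤ} (f : A.Map B n) (h : p + n = q) (x : A.X p) : B.X q :=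
  mval (f.v p q h) x

variable {R : DGAlg.{v} k}

/-- the product xa -/
def DGMod.rmul (M : DGMod R) {p q r : ℤ} (h : p + q = r) (x : M.K.X p) (a : R.K.X q) : M.K.X r :=
  Pairing.app M.act h x a

/-- the product ax -/
def DGBimod.lmul (M : DGBimod R) {p q r : ℤ} (h : p + q = r) (a : R.K.X p) (x : M.K.X q) :
    M.K.X r :=
  Pairing.app M.lact h a x

/-- f is a homomorphism of right modules of degree n, f(xa) = f(x)a -/
def DGMod.IsHom (M N : DGMod R) {n : ℤ} (f : M.K.Map N.K n) : Prop :=
  ∀ ⦃p q s p' q' : ℤ⦄ (h : p + n = q) (h' : p' + n = q') (hp : p + s = p') (hq : q + s = q')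
    (x : M.K.X p) (a : R.K.X s), val f h' (M.rmul hp x a) = N.rmul hq (val f h x) a

/-- f is a homomorphism of bimodules of degree n, moreover f(ax) = (-1)^(ns) af(x) for a of
degree s -/
def DGBimod.IsHom (M N : DGBimod R) {n : ℤ} (f : M.K.Map N.K n) : Prop :=
  DGMod.IsHom M.toDGMod N.toDGMod f ∧ ∀ ⦃p q s p' q' : ℤ⦄ (h : p + n = q) (h' : p' + n = q')
    (hp : s + p = p') (hq : s + q = q') (a : R.K.X s) (x : M.K.X p),
    val f h' (M.lmul hp a x) = (n * s).negOnePow • N.lmul hq a (val f h x)

section Val

variable {A B C : Cx.{v} k} {n p q : ℤ}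

theorem val_add (f g : A.Map B n) (h : p + n = q) (x : A.X p) :
    val (f + g) h x = val f h x + val g h x := rfl

theorem val_zero (h : p + n = q) (x : A.X p) : val (0 : A.Map B n) h x = 0 := rfl

theorem val_neg (f : A.Map B n) (h : p + n = q) (x : A.X p) :
    val (-f) h x = - val f h x := rfl

theorem val_sub (f g : A.Map B n) (h : p + n = q) (x : A.X p) :
    val (f - g) h x = val f h x - val g h x := rfl

theorem val_smul (c : k) (f : A.Map B n) (h : p + n = q) (x : A.X p) :
    val (c • f) h x = c • val f h x := rfl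

theorem val_map_add (f : A.Map B n) (h : p + n = q) (x y : A.X p) :
    val f h (x + y) = val f h x + val f h y := map_add (f.v p q h).hom x y

theorem val_map_zero (f : A.Map B n) (h : p + n = q) : val f h (0 : A.X p) = 0 :=
  map_zero (f.v p q h).hom

theorem val_map_neg (f : A.Map B n) (h : p + n = q) (x : A.X p) :
    val f h (-x) = - val f h x := map_neg (f.v p q h).hom x

theorem val_map_sub (f : A.Map B n) (h : p + n = q) (x y : A.X p) :
    val f h (x - y) = val f h x - val f h y := map_sub (f.v p q h).hom x y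

theorem val_map_smul (f : A.Map B n) (h : p + n = q) (c : k) (x : A.X p) :
    val f h (c • x) = c • val f h x := map_smul (f.v p q h).hom c x

theorem val_map_zsmul (f : A.Map B n) (h : p + n = q) (c : ℤ) (x : A.X p) :
    val f h (c • x) = c • val f h x := map_zsmul (f.v p q h).hom c x

theorem val_map_units_smul (f : A.Map B n) (h : p + n = q) (c : ℤˣ) (x : A.X p) :
    val f h (c • x) = c • val f h x := by
  rw [Units.smul_def, Units.smul_def, val_map_zsmul]

theorem val_δ {m : ℤ} (hn : n + 1 = m) (f : A.Map B n) (h : p + m = q) {q₁ p₁ : ℤ}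
    (h₁ : p + n = q₁) (hp : p + 1 = p₁) (h₂ : p₁ + n = q) (x : A.X p) :
    val (δ n m f) h x = B.d q₁ q (val f h₁ x) + m.negOnePow • val f h₂ (A.d p p₁ x) := by
  have e := δ_v n m hn f p q h q₁ p₁ (by lia) (by lia)
  simp only [val, mval]
  rw [e]
  rfl

theorem val_comp {m e : ℤ} (f : A.Map B n) (g : B.Map C m) (hn : n + m = e) {r : ℤ}
    (h : p + e = r) (h₁ : p + n = q) (h₂ : q + m = r) (x : A.X p) :
    val (f.comp g hn) h x = val g h₂ (val f h₁ x) := by
  simp only [val, mval]
  rw [Cochain.comp_v f g hn p q r h₁ h₂]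
  rfl

theorem val_id (h : p + 0 = p) (x : A.X p) :
    val (Cochain.ofHom (𝟙 A.toCC) : A.Map A 0) h x = x := by
  simp only [val, mval]
  rw [Cochain.ofHom_v]
  rfl

theorem map_ext {f g : A.Map B n} (h : ∀ (p q : ℤ) (h : p + n = q) (x : A.X p),
    val f h x = val g h x) : f = g := by
  ext p q hpq x
  exact h p q hpq x

end Val

section Mul

variable (M : DGMod R) (N : DGBimod R) {p q r : ℤ} (h : p + q = r)

theorem rmul_eq (x : M.K.X p) (a : R.K.X q) : M.rmul h x a = M.act.mul h x a := rfl

theorem lmul_eq (a : R.K.X p) (x : N.K.X q) : N.lmul h a x = N.lact.mul h a x := rfl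

theorem add_rmul (x y : M.K.X p) (a : R.K.X q) :
    M.rmul h (x + y) a = M.rmul h x a + M.rmul h y a := by
  simp only [rmul_eq, map_add, LinearMap.add_apply]

theorem zero_rmul (a : R.K.X q) : M.rmul h 0 a = 0 := by
  simp only [rmul_eq, map_zero, LinearMap.zero_apply]

theorem smul_rmul (c : k) (x : M.K.X p) (a : R.K.X q) :
    M.rmul h (c • x) a = c • M.rmul h x a := by
  simp only [rmul_eq, map_smul, LinearMap.smul_apply]

theorem units_smul_rmul (c : ℤˣ) (x : M.K.X p) (a : R.K.X q) :
    M.rmul h (c • x) a = c • M.rmul h x a := by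
  simp only [rmul_eq, Units.smul_def, map_zsmul, LinearMap.smul_apply]

theorem lmul_add (a : R.K.X p) (x y : N.K.X q) :
    N.lmul h a (x + y) = N.lmul h a x + N.lmul h a y := by
  simp only [lmul_eq, map_add]

theorem lmul_zero (a : R.K.X p) : N.lmul h a 0 = 0 := by
  simp only [lmul_eq, map_zero]

theorem lmul_smul (c : k) (a : R.K.X p) (x : N.K.X q) :
    N.lmul h a (c • x) = c • N.lmul h a x := by
  simp only [lmul_eq, map_smul]

theorem lmul_units_smul (c : ℤˣ) (a : R.K.X p) (x : N.K.X q) :
    N.lmul h a (c • x) = c • N.lmul h a x := by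
  simp only [lmul_eq, Units.smul_def, map_zsmul]

theorem d_rmul {p' q' r' : ℤ} (hp : p + 1 = p') (hq : q + 1 = q') (hr : r + 1 = r')
    (x : M.K.X p) (a : R.K.X q) : M.K.d r r' (M.rmul h x a) =
      M.rmul (show p' + q = r' by lia) (M.K.d p p' x) a +
        p.negOnePow • M.rmul (show p + q' = r' by lia) x (R.K.d q q' a) :=
  M.act.leibniz h hp hq hr x a

theorem d_lmul {p' q' r' : ℤ} (hp : p + 1 = p') (hq : q + 1 = q') (hr : r + 1 = r')
    (a : R.K.X p) (x : N.K.X q) : N.K.d r r' (N.lmul h a x) =
      N.lmul (show p' + q = r' by lia) (R.K.d p p' a) x +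
        p.negOnePow • N.lmul (show p + q' = r' by lia) a (N.K.d q q' x) :=
  N.lact.leibniz h hp hq hr a x

end Mul

section Hom

theorem DGMod.IsHom.add {M N : DGMod R} {n : ℤ} {f g : M.K.Map N.K n} (hf : M.IsHom N f)
    (hg : M.IsHom N g) : M.IsHom N (f + g) := by
  intro p q s p' q' h h' hp hq x a
  rw [val_add, val_add, hf h h' hp hq, hg h h' hp hq, add_rmul]

theorem DGMod.IsHom.zero {M N : DGMod R} {n : ℤ} : M.IsHom N (0 : M.K.Map N.K n) := by
  intro p q s p' q' h h' hp hq x a
  rw [val_zero, val_zero, zero_rmul]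

theorem DGMod.IsHom.smul {M N : DGMod R} {n : ℤ} (c : k) {f : M.K.Map N.K n}
    (hf : M.IsHom N f) : M.IsHom N (c • f) := by
  intro p q s p' q' h h' hp hq x a
  rw [val_smul, val_smul, hf h h' hp hq, smul_rmul]

theorem DGMod.IsHom.δ {M N : DGMod R} {n m : ℤ} (hn : n + 1 = m) {f : M.K.Map N.K n}
    (hf : M.IsHom N f) : M.IsHom N (δ n m f) := by
  intro p q s p' q' h h' hp hq x a
  rw [val_δ hn f h' (show p' + n = q' - 1 by lia) rfl (show p' + 1 + n = q' by lia),
    val_δ hn f h (show p + n = q - 1 by lia) rfl (show p + 1 + n = q by lia),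
    hf (show p + n = q - 1 by lia) (show p' + n = q' - 1 by lia) hp
      (show q - 1 + s = q' - 1 by lia) x a,
    d_rmul N (show q - 1 + s = q' - 1 by lia) (show q - 1 + 1 = q by lia) rfl
      (show q' - 1 + 1 = q' by lia), d_rmul M hp rfl rfl rfl x a, val_map_add,
    hf (show p + 1 + n = q by lia) (show p' + 1 + n = q' by lia)
      (show p + 1 + s = p' + 1 by lia) hq, val_map_units_smul,
    hf (show p + n = q - 1 by lia) (show p' + 1 + n = q' by lia)
      (show p + (s + 1) = p' + 1 by lia) (show q - 1 + (s + 1) = q' by lia),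
    add_rmul, units_smul_rmul, smul_add, smul_smul]
  have hs : (q - 1).negOnePow = - (m.negOnePow * p.negOnePow) := by
    rw [show q - 1 = m + p - 1 by lia, Int.negOnePow_sub, Int.negOnePow_add]
    simp
  rw [hs, Units.neg_smul]
  abel

theorem DGMod.IsHom.comp {M N L : DGMod R} {n m e : ℤ} {f : M.K.Map N.K n}
    (hf : M.IsHom N f) {g : N.K.Map L.K m} (hg : N.IsHom L g) (hn : n + m = e) :
    M.IsHom L (f.comp g hn) := by
  intro p q s p' q' h h' hp hq x a
  rw [val_comp f g hn h' (q := p' + n) rfl (by lia), val_comp f g hn h (q := p + n) rfl (by lia),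
    hf (show p + n = p + n by lia) (show p' + n = p' + n by lia) hp
      (show p + n + s = p' + n by lia), hg]

theorem DGMod.IsHom.id (M : DGMod R) : M.IsHom M (Cochain.ofHom (𝟙 M.K.toCC)) := by
  intro p q s p' q' h h' hp hq x a
  obtain rfl : p = q := by lia
  obtain rfl : p' = q' := by lia
  rw [val_id, val_id]

theorem DGBimod.IsHom.add {M N : DGBimod R} {n : ℤ} {f g : M.K.Map N.K n}
    (hf : M.IsHom N f) (hg : M.IsHom N g) : M.IsHom N (f + g) := by
  refine ⟨hf.1.add hg.1, ?_⟩
  intro p q s p' q' h h' hp hq a x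
  rw [val_add, val_add, hf.2 h h' hp hq, hg.2 h h' hp hq, lmul_add, smul_add]

theorem DGBimod.IsHom.zero {M N : DGBimod R} {n : ℤ} : M.IsHom N (0 : M.K.Map N.K n) := by
  refine ⟨DGMod.IsHom.zero, ?_⟩
  intro p q s p' q' h h' hp hq a x
  rw [val_zero, val_zero, lmul_zero, smul_zero]

theorem DGBimod.IsHom.smul {M N : DGBimod R} {n : ℤ} (c : k) {f : M.K.Map N.K n}
    (hf : M.IsHom N f) : M.IsHom N (c • f) := by
  refine ⟨hf.1.smul c, ?_⟩
  intro p q s p' q' h h' hp hq a x
  rw [val_smul, val_smul, hf.2 h h' hp hq, lmul_smul, smul_comm]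

theorem DGBimod.IsHom.δ {M N : DGBimod R} {n m : ℤ} (hn : n + 1 = m) {f : M.K.Map N.K n}
    (hf : M.IsHom N f) : M.IsHom N (δ n m f) := by
  refine ⟨hf.1.δ hn, ?_⟩
  intro p q s p' q' h h' hp hq a x
  rw [val_δ hn f h' (show p' + n = q' - 1 by lia) rfl (show p' + 1 + n = q' by lia),
    val_δ hn f h (show p + n = q - 1 by lia) rfl (show p + 1 + n = q by lia),
    hf.2 (show p + n = q - 1 by lia) (show p' + n = q' - 1 by lia) hp
      (show s + (q - 1) = q' - 1 by lia) a x, Units.smul_def, map_zsmul, ← Units.smul_def,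
    d_lmul N (show s + (q - 1) = q' - 1 by lia) rfl (show q - 1 + 1 = q by lia)
      (show q' - 1 + 1 = q' by lia), d_lmul M hp rfl rfl rfl a x, val_map_add,
    hf.2 (show p + n = q - 1 by lia) (show p' + 1 + n = q' by lia)
      (show (s + 1) + p = p' + 1 by lia) (show (s + 1) + (q - 1) = q' by lia), val_map_units_smul,
    hf.2 (show p + 1 + n = q by lia) (show p' + 1 + n = q' by lia)
      (show s + (p + 1) = p' + 1 by lia) hq,
    lmul_add, lmul_units_smul]
  simp only [smul_add, smul_smul]
  have h1 : m.negOnePow * (n * (s + 1)).negOnePow = - (n * s).negOnePow := by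
    rw [← Int.negOnePow_add, ← Int.negOnePow_succ, Int.negOnePow_eq_iff]
    exact ⟨n, by rw [← hn]; ring⟩
  have h2 : (n * s).negOnePow * s.negOnePow = (m * s).negOnePow := by
    rw [← Int.negOnePow_add, ← hn, add_mul, one_mul]
  have h3 : m.negOnePow * (s.negOnePow * (n * s).negOnePow) =
      (m * s).negOnePow * m.negOnePow := by
    rw [← h2, mul_comm s.negOnePow, mul_comm]
  rw [h1, h2, h3, Units.neg_smul]
  abel

theorem DGBimod.IsHom.comp {M N L : DGBimod R} {n m e : ℤ}
    {f : M.K.Map N.K n} (hf : M.IsHom N f) {g : N.K.Map L.K m} (hg : N.IsHom L g)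
    (hn : n + m = e) : M.IsHom L (f.comp g hn) := by
  refine ⟨hf.1.comp hg.1 hn, ?_⟩
  intro p q s p' q' h h' hp hq a x
  rw [val_comp f g hn h' (q := p' + n) rfl (by lia), val_comp f g hn h (q := p + n) rfl (by lia),
    hf.2 (show p + n = p + n by lia) (show p' + n = p' + n by lia) hp
      (show s + (p + n) = p' + n by lia), val_map_units_smul,
    hg.2 (show p + n + m = q by lia) (show p' + n + m = q' by lia)
      (show s + (p + n) = p' + n by lia) hq, smul_smul,
    show e * s = n * s + m * s by rw [← hn]; ring, Int.negOnePow_add]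

theorem DGBimod.IsHom.id (M : DGBimod R) : M.IsHom M (Cochain.ofHom (𝟙 M.K.toCC)) := by
  refine ⟨DGMod.IsHom.id _, ?_⟩
  intro p q s p' q' h h' hp hq a x
  obtain rfl : p = q := by lia
  obtain rfl : p' = q' := by lia
  rw [val_id, val_id]
  simp

end Hom

variable (R)

theorem DGMod.isSub : (complexes k (ModuleCat.{v} k)).IsSub (O := DGMod R) (fun M => M.K.toCC)
    (fun M N n f => M.IsHom N (n := n) f) where
  sub M N :=
    { zero := fun _ => DGMod.IsHom.zero
      add := fun _ _ _ => DGMod.IsHom.add
      smul := fun _ c _ => DGMod.IsHom.smul c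
      d := fun n m x hx => by
        by_cases h : n + 1 = m
        · exact DGMod.IsHom.δ h hx
        · change M.IsHom N (δ (F := M.K.toCC) (G := N.K.toCC) n m x)
          rw [δ_shape n m h]
          exact DGMod.IsHom.zero }
  comp h _ _ hg hf := hf.comp hg (by lia)
  one M := DGMod.IsHom.id M

/-- the DG category of right DG modules -/
noncomputable def DGMod.cat : DGCat.{v, max (v + 1) t} k := (DGMod.isSub R).toDGCat

/-- R as a right DG module over itself -/
def DGMod.self : DGMod R where
  K := R.K
  act := R.mul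
  assoc := R.assoc
  act_one := R.mul_one

/-- The DG category of perfect right DG modules: the full DG subcategory of the DG category of
right DG modules on the thick closure of R.  Its homotopy category is the thick subcategory of the
derived category of R generated by R. -/
noncomputable def DGAlg.perf : DGCat.{v, max (v + 1) t} k :=
  (DGMod.cat R).full ((DGMod.cat R).Thick fun M => M = DGMod.self R)

theorem DGBimod.isSub : (complexes k (ModuleCat.{v} k)).IsSub (O := DGBimod R)
    (fun M => M.K.toCC) (fun M N n f => M.IsHom N (n := n) f) where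
  sub M N :=
    { zero := fun _ => DGBimod.IsHom.zero
      add := fun _ _ _ => DGBimod.IsHom.add
      smul := fun _ c _ => DGBimod.IsHom.smul c
      d := fun n m x hx => by
        by_cases h : n + 1 = m
        · exact DGBimod.IsHom.δ h hx
        · change M.IsHom N (δ (F := M.K.toCC) (G := N.K.toCC) n m x)
          rw [δ_shape n m h]
          exact DGBimod.IsHom.zero }
  comp h _ _ hg hf := hf.comp hg (by lia)
  one M := DGBimod.IsHom.id M

/-- the DG category of DG bimodules -/
noncomputable def DGBimod.cat : DGCat.{v, max (v + 1) t} k := (DGBimod.isSub R).toDGCat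

/-- R as a DG bimodule over itself, the diagonal bimodule -/
def DGBimod.diag : DGBimod R where
  toDGMod := DGMod.self R
  lact := R.mul
  lassoc := R.assoc
  one_lact := R.one_mul
  lact_act := R.assoc

variable {R}

/-- F is the free DG bimodule of rank one (that is, R tensor R): it has a closed generator e of
degree 0 such that for every bimodule N and every element x of N of degree n there is exactly one
bimodule homomorphism of degree n with e ↦ x. -/
def DGBimod.IsFree (F : DGBimod R) : Prop :=
  ∃ e : F.K.X 0, IsClosed' F.K.d e ∧ ∀ (N : DGBimod R) (n : ℤ) (x : N.K.X n),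
    ∃! f : F.K.Map N.K n, F.IsHom N f ∧ val f (zero_add n) e = x

/-- The DG bimodule M is perfect: it is quasi-isomorphic to an object of the thick closure of the
free bimodule of rank one. -/
def DGBimod.IsPerfect (M : DGBimod R) : Prop :=
  ∃ T : DGBimod R, (DGBimod.cat R).Thick DGBimod.IsFree T ∧ ∃ f : T.K.Map M.K 0,
    T.IsHom M f ∧ IsClosed' (homCx k T.K.toCC M.K.toCC).d f ∧
      QIso T.K.d M.K.d fun n => val f (add_zero n)

/-- the DG algebra R is smooth: R is a perfect DG bimodule -/
def DGAlg.IsSmooth (R : DGAlg.{v} k) : Prop :=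
  (DGBimod.diag R).IsPerfect

end FdDG
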