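import Mathlib

/-!
MP_a6e60d_ag, definitions: complexes of modules and pairings of complexes, DG categories over a
commutative ring k, DG functors, quasi-equivalences, cones and thick closures in a DG category, the
DG category of complexes of a k-linear category.
-/

open CategoryTheory

attribute [-instance] CategoryTheory.catToReflQuiver

universe w v u u' t

namespace FdDG

/-- a complex of k-modules -/
structure Cx (k : Type t) [CommRing k] where
  /-- the modules -/
  X : ℤ → ModuleCat.{v} k
  /-- the differential d n m, which is zero unless m = n + 1 -/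
  d : ∀ n m : ℤ, X n →ₗ[k] X m
  shape : ∀ n m : ℤ, n + 1 ≠ m → d n m = 0
  d_d : ∀ (n m l : ℤ) (x : X n), d m l (d n m x) = 0

section Graded

variable {k : Type t} [CommRing k] {A B C : ℤ → ModuleCat.{v} k}
  (dA : ∀ n m : ℤ, A n →ₗ[k] A m) (dB : ∀ n m : ℤ, B n →ₗ[k] B m) (dC : ∀ n m : ℤ, C n →ₗ[k] C m)

/-- the element x is closed, dx = 0 -/
def IsClosed' {n : ℤ} (x : A n) : Prop := dA n (n + 1) x = 0

/-- x = y + dz for some z -/
def IsHomologous {n : ℤ} (x y : A n) : Prop := ∃ z : A (n - 1), x = y + dA (n - 1) n z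

/-- Bilinear maps (a, b) ↦ ab of homogeneous elements of complexes with
d(ab) = (da)b + (-1)^p a(db), p the degree of a. -/
structure Bil where
  /-- the product -/
  mul : ∀ {p q r : ℤ}, p + q = r → A p →ₗ[k] B q →ₗ[k] C r
  leibniz : ∀ {p q r p' q' r' : ℤ} (h : p + q = r) (_ : p + 1 = p') (_ : q + 1 = q')
    (_ : r + 1 = r') (a : A p) (b : B q),
    dC r r' (mul h a b) = mul (show p' + q = r' by lia) (dA p p' a) b +
      p.negOnePow • mul (show p + q' = r' by lia) a (dB q q' b)

/-- linear maps of degree zero commuting with the differentials -/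
structure GMap where
  /-- the maps -/
  f : ∀ n : ℤ, A n →ₗ[k] B n
  comm : ∀ (n m : ℤ) (x : A n), f m (dA n m x) = dB n m (f n x)

/-- the maps φ are injective and surjective on cohomology -/
def QIso (φ : ∀ n : ℤ, A n → B n) : Prop :=
  (∀ (n : ℤ) (x : A n), IsClosed' dA x → IsHomologous dB (φ n x) 0 → IsHomologous dA x 0) ∧
  ∀ (n : ℤ) (y : B n), IsClosed' dB y → ∃ x : A n, IsClosed' dA x ∧ IsHomologous dB y (φ n x)

/-- the elements with property S form a subcomplex -/
structure IsSubcomplex (S : ∀ n : ℤ, A n → Prop) : Prop where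
  zero : ∀ n : ℤ, S n 0
  add : ∀ (n : ℤ) (x y : A n), S n x → S n y → S n (x + y)
  smul : ∀ (n : ℤ) (c : k) (x : A n), S n x → S n (c • x)
  d : ∀ (n m : ℤ) (x : A n), S n x → S m (dA n m x)

/-- the value of a bilinear map -/
def bap {p q r : ℤ} (f : A p →ₗ[k] B q →ₗ[k] C r) (a : A p) (b : B q) : C r := f a b

/-- the value of a linear map -/
def lap {p q : ℤ} (f : A p →ₗ[k] B q) (a : A p) : B q := f a

end Graded

section Complexes

variable {k : Type t} [CommRing k]

/-- A pairing of complexes, that is, a morphism of complexes from the tensor product of A and B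
to C. -/
abbrev Pairing (A B C : Cx.{v} k) : Type v := Bil A.d B.d C.d

/-- a morphism of complexes -/
abbrev CxHom (A B : Cx.{v} k) : Type v := GMap A.d B.d

variable {A B C E F G : Cx.{v} k}

/-- the product of two elements -/
def Pairing.app (μ : Pairing A B C) {p q r : ℤ} (h : p + q = r) (a : A.X p) (b : B.X q) : C.X r :=
  bap (μ.mul h) a b

/-- the image of an element -/
def CxHom.app (φ : CxHom A B) (n : ℤ) (a : A.X n) : B.X n := lap (φ.f n) a

/-- the associative law (ab)c = a(bc) -/
def Assoc (μ₁ : Pairing A B E) (μ₂ : Pairing E C F) (μ₃ : Pairing B C G)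
    (μ₄ : Pairing A G F) : Prop :=
  ∀ ⦃p q r s t e : ℤ⦄ (h₁ : p + q = s) (h₂ : s + r = e) (h₃ : q + r = t) (h₄ : p + t = e)
    (a : A.X p) (b : B.X q) (c : C.X r),
    Pairing.app μ₂ h₂ (Pairing.app μ₁ h₁ a b) c = Pairing.app μ₄ h₄ a (Pairing.app μ₃ h₃ b c)

/-- e is a left unit -/
def LeftUnit (μ : Pairing A B B) (e : A.X 0) : Prop :=
  ∀ (p : ℤ) (b : B.X p), Pairing.app μ (zero_add p) e b = b

/-- e is a right unit -/
def RightUnit (μ : Pairing A B A) (e : B.X 0) : Prop :=
  ∀ (p : ℤ) (a : A.X p), Pairing.app μ (add_zero p) a e = a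

end Complexes

/-- A DG category over k: complexes of k-modules Hom X Y, compositions (g, f) ↦ g ∘ f satisfying
the Leibniz rule and the associative law, and identities. -/
structure DGCat (k : Type t) [CommRing k] where
  /-- objects -/
  Obj : Type u
  /-- morphism complexes -/
  Hom : Obj → Obj → Cx.{v} k
  /-- composition -/
  comp : ∀ X Y Z : Obj, Pairing (Hom Y Z) (Hom X Y) (Hom X Z)
  /-- identities -/
  one : ∀ X : Obj, (Hom X X).X 0
  assoc : ∀ X Y Z W : Obj, Assoc (comp Y Z W) (comp X Y W) (comp X Y Z) (comp X Z W)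
  one_comp : ∀ X Y : Obj, LeftUnit (comp X Y Y) (one Y)
  comp_one : ∀ X Y : Obj, RightUnit (comp X X Y) (one X)

namespace DGCat

variable {k : Type t} [CommRing k]

/-- the full DG subcategory on the objects with property P -/
def full (D : DGCat.{v, u} k) (P : D.Obj → Prop) : DGCat.{v, u} k where
  Obj := {X : D.Obj // P X}
  Hom X Y := D.Hom X.1 Y.1
  comp X Y Z := D.comp X.1 Y.1 Z.1
  one X := D.one X.1
  assoc X Y Z W := D.assoc X.1 Y.1 Z.1 W.1
  one_comp X Y := D.one_comp X.1 Y.1
  comp_one X Y := D.comp_one X.1 Y.1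

variable (D : DGCat.{v, u} k) {X Y Z : D.Obj}

/-- the composition g ∘ f -/
def cmp {p q r : ℤ} (h : p + q = r) (g : (D.Hom Y Z).X p) (f : (D.Hom X Y).X q) :
    (D.Hom X Z).X r :=
  Pairing.app (D.comp X Y Z) h g f

/-- f is closed -/
def Closed {n : ℤ} (f : (D.Hom X Y).X n) : Prop := IsClosed' (D.Hom X Y).d f

/-- f and g are homotopic, f = g + dh -/
def Homotopic {n : ℤ} (f g : (D.Hom X Y).X n) : Prop := IsHomologous (D.Hom X Y).d f g

variable (X Y) in
/-- Y is, up to homotopy, a direct summand of a shift of X: there are closed a : Y → X of degree n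
and b : X → Y of degree -n with b ∘ a homotopic to the identity -/
def IsSummandOfShift : Prop :=
  ∃ (n : ℤ) (a : (D.Hom Y X).X n) (b : (D.Hom X Y).X (-n)), D.Closed a ∧ D.Closed b ∧
    D.Homotopic (D.cmp (neg_add_cancel n) b a) (D.one Y)

variable (X Y) in
/-- X and Y are homotopy equivalent -/
def Equivalent : Prop :=
  ∃ (a : (D.Hom X Y).X 0) (b : (D.Hom Y X).X 0), D.Closed a ∧ D.Closed b ∧
    D.Homotopic (D.cmp (add_zero 0) b a) (D.one X) ∧
      D.Homotopic (D.cmp (add_zero 0) a b) (D.one Y)

/-- Z is the cone of f : X → Y: as a graded object Z is the direct sum of X[1] and Y, with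
inclusions inl, inr and projections fst, snd, and the differential of Z is given by f -/
structure IsCone (f : (D.Hom X Y).X 0) (Z : D.Obj) where
  /-- the inclusion of X[1] -/
  inl : (D.Hom X Z).X (-1)
  /-- the inclusion of Y -/
  inr : (D.Hom Y Z).X 0
  /-- the projection to X[1] -/
  fst : (D.Hom Z X).X 1
  /-- the projection to Y -/
  snd : (D.Hom Z Y).X 0
  fst_inl : D.cmp (add_neg_cancel 1) fst inl = D.one X
  snd_inr : D.cmp (add_zero 0) snd inr = D.one Y
  snd_inl : D.cmp (zero_add (-1)) snd inl = 0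
  fst_inr : D.cmp (add_zero 1) fst inr = 0
  total : D.cmp (neg_add_cancel 1) inl fst + D.cmp (add_zero 0) inr snd = D.one Z
  d_inl : lap ((D.Hom X Z).d (-1) 0) inl = D.cmp (add_zero 0) inr f
  d_inr : D.Closed inr

/-- the thick closure of S: the smallest class of objects which contains S and is closed under
cones of closed morphisms of degree zero, shifts and direct summands up to homotopy -/
inductive Thick (S : D.Obj → Prop) : D.Obj → Prop
  | of (X : D.Obj) : S X → Thick S X
  | cone (X Y Z : D.Obj) (f : (D.Hom X Y).X 0) : Thick S X → Thick S Y → D.Closed f →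
      Nonempty (D.IsCone f Z) → Thick S Z
  | summand (X Y : D.Obj) : Thick S X → D.IsSummandOfShift X Y → Thick S Y

end DGCat

/-- DG functors -/
structure DGFunctor {k : Type t} [CommRing k] (D E : DGCat.{v, u} k) where
  /-- objects -/
  obj : D.Obj → E.Obj
  /-- morphisms -/
  map : ∀ X Y : D.Obj, CxHom (D.Hom X Y) (E.Hom (obj X) (obj Y))
  map_comp : ∀ {X Y Z : D.Obj} {p q r : ℤ} (h : p + q = r) (g : (D.Hom Y Z).X p)
    (f : (D.Hom X Y).X q), CxHom.app (map X Z) r (D.cmp h g f) =
      E.cmp h (CxHom.app (map Y Z) p g) (CxHom.app (map X Y) q f)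
  map_one : ∀ X : D.Obj, CxHom.app (map X X) 0 (D.one X) = E.one (obj X)

/-- F is a quasi-equivalence: it induces quasi-isomorphisms of morphism complexes, and every object
of E is homotopy equivalent to some F X. -/
def DGFunctor.IsQuasiEquivalence {k : Type t} [CommRing k] {D E : DGCat.{v, u} k}
    (F : DGFunctor D E) : Prop :=
  (∀ X Y : D.Obj, QIso (D.Hom X Y).d (E.Hom (F.obj X) (F.obj Y)).d (CxHom.app (F.map X Y))) ∧
    ∀ Y : E.Obj, ∃ X : D.Obj, E.Equivalent (F.obj X) Y

/-- D and E are quasi-equivalent: they are connected by a chain of quasi-equivalences -/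
def QuasiEquivalent {k : Type t} [CommRing k] (D E : DGCat.{v, u} k) : Prop :=
  Relation.EqvGen (fun D E : DGCat.{v, u} k => ∃ F : DGFunctor D E, F.IsQuasiEquivalence) D E

end FdDG
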