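import Pool.Agent.Work.MP_a6e60d_ag.Def.Cat

/-!
MP_a6e60d_ag, definitions: subcomplexes, DG categories of objects with an additional structure, the
DG category of complexes of a k-linear category.
-/

open CategoryTheory

attribute [-instance] CategoryTheory.catToReflQuiver

universe w v u u' t

namespace FdDG

section Sub

variable {k : Type t} [CommRing k]

/-- the subcomplex with the elements S, as a complex with an injective map i to A -/
structure SubModel {A : ℤ → ModuleCat.{v} k} (dA : ∀ n m : ℤ, A n →ₗ[k] A m)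
    (S : ∀ n : ℤ, A n → Prop) extends Cx.{v} k where
  /-- the inclusion -/
  i : ∀ n : ℤ, X n →ₗ[k] A n
  comm : ∀ (n m : ℤ) (x : X n), i m (d n m x) = dA n m (i n x)
  inj : ∀ n : ℤ, Function.Injective (i n)
  image : ∀ (n : ℤ) (x : A n), S n x ↔ ∃ y : X n, i n y = x

/-- the submodule of the elements with property S -/
def subMod {A : ℤ → ModuleCat.{v} k} {dA : ∀ n m : ℤ, A n →ₗ[k] A m} {S : ∀ n : ℤ, A n → Prop}
    (h : IsSubcomplex dA S) (n : ℤ) : Submodule k (A n) where
  carrier := {x | S n x}
  add_mem' := h.add n _ _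
  zero_mem' := h.zero n
  smul_mem' c _ hx := h.smul n c _ hx

variable {A B C : Cx.{v} k}

theorem nonempty_subModel {S : ∀ n : ℤ, A.X n → Prop} (h : IsSubcomplex A.d S) :
    Nonempty (SubModel A.d S) :=
  ⟨{ X := fun n => ModuleCat.of k (subMod h n)
     d := fun n m => (A.d n m).restrict (h.d n m)
     shape := fun n m hn => LinearMap.ext fun x => Subtype.ext (by simp [A.shape n m hn])
     d_d := fun n m l x => Subtype.ext (A.d_d n m l x.1)
     i := fun n => (subMod h n).subtype
     comm := fun _ _ _ => rfl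
     inj := fun _ => Subtype.val_injective
     image := fun n x => ⟨fun hx => ⟨⟨x, hx⟩, rfl⟩, fun ⟨y, hy⟩ => hy ▸ y.2⟩ }⟩

/-- the subcomplex of A with the elements S -/
noncomputable def subModel {S : ∀ n : ℤ, A.X n → Prop} (h : IsSubcomplex A.d S) :
    SubModel A.d S := (nonempty_subModel h).some

/-- the subcomplex of A with the elements S -/
noncomputable def subCx {S : ∀ n : ℤ, A.X n → Prop} (h : IsSubcomplex A.d S) : Cx.{v} k :=
  (subModel h).toCx

/-- an element of a subcomplex as an element of the complex -/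
noncomputable def subVal {S : ∀ n : ℤ, A.X n → Prop} (h : IsSubcomplex A.d S) {n : ℤ}
    (x : (subCx h).X n) : A.X n := lap ((subModel h).i n) x

theorem exists_subElt {S : ∀ n : ℤ, A.X n → Prop} (h : IsSubcomplex A.d S) {n : ℤ} (x : A.X n)
    (hx : S n x) : ∃ y : (subCx h).X n, subVal h y = x :=
  ((subModel h).image n x).1 hx

/-- an element of A with property S as an element of the subcomplex -/
noncomputable def subElt {S : ∀ n : ℤ, A.X n → Prop} (h : IsSubcomplex A.d S) {n : ℤ} (x : A.X n)
    (hx : S n x) : (subCx h).X n := (exists_subElt h x hx).choose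

theorem subVal_subElt {S : ∀ n : ℤ, A.X n → Prop} (h : IsSubcomplex A.d S) {n : ℤ} (x : A.X n)
    (hx : S n x) : subVal h (subElt h x hx) = x := (exists_subElt h x hx).choose_spec

theorem subVal_injective {S : ∀ n : ℤ, A.X n → Prop} (h : IsSubcomplex A.d S) (n : ℤ) :
    Function.Injective (subVal h (n := n)) := (subModel h).inj n

theorem subVal_mem {S : ∀ n : ℤ, A.X n → Prop} (h : IsSubcomplex A.d S) {n : ℤ}
    (x : (subCx h).X n) : S n (subVal h x) := ((subModel h).image n _).2 ⟨x, rfl⟩

theorem subVal_add {S : ∀ n : ℤ, A.X n → Prop} (h : IsSubcomplex A.d S) {n : ℤ}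
    (x y : (subCx h).X n) : subVal h (x + y) = subVal h x + subVal h y :=
  map_add ((subModel h).i n) x y

theorem subVal_smul {S : ∀ n : ℤ, A.X n → Prop} (h : IsSubcomplex A.d S) {n : ℤ} (c : k)
    (x : (subCx h).X n) : subVal h (c • x) = c • subVal h x :=
  map_smul ((subModel h).i n) c x

theorem subVal_zsmul {S : ∀ n : ℤ, A.X n → Prop} (h : IsSubcomplex A.d S) {n : ℤ} (c : ℤ)
    (x : (subCx h).X n) : subVal h (c • x) = c • subVal h x :=
  map_zsmul ((subModel h).i n) c x

theorem subVal_zero {S : ∀ n : ℤ, A.X n → Prop} (h : IsSubcomplex A.d S) {n : ℤ} :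
    subVal h (0 : (subCx h).X n) = 0 :=
  map_zero ((subModel h).i n)

theorem subVal_d {S : ∀ n : ℤ, A.X n → Prop} (h : IsSubcomplex A.d S) (n m : ℤ)
    (x : (subCx h).X n) : subVal h ((subCx h).d n m x) = A.d n m (subVal h x) :=
  (subModel h).comm n m x

theorem exists_subPairing {S : ∀ n : ℤ, A.X n → Prop} {T : ∀ n : ℤ, B.X n → Prop}
    {U : ∀ n : ℤ, C.X n → Prop} (hS : IsSubcomplex A.d S) (hT : IsSubcomplex B.d T)
    (hU : IsSubcomplex C.d U) (μ : Pairing A B C)
    (hμ : ∀ {p q r : ℤ} (h : p + q = r) (a : A.X p) (b : B.X q), S p a → T q b →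
      U r (Pairing.app μ h a b)) :
    ∃ ν : Pairing (subCx hS) (subCx hT) (subCx hU), ∀ {p q r : ℤ} (h : p + q = r)
      (a : (subCx hS).X p) (b : (subCx hT).X q),
      subVal hU (Pairing.app ν h a b) = Pairing.app μ h (subVal hS a) (subVal hT b) := by
  have key : ∀ {p q r : ℤ} (h : p + q = r) (a : (subCx hS).X p) (b : (subCx hT).X q),
      ∃ c : (subCx hU).X r, subVal hU c = Pairing.app μ h (subVal hS a) (subVal hT b) :=
    fun h a b => exists_subElt hU _ (hμ h _ _ (subVal_mem hS a) (subVal_mem hT b))
  choose f hf using @key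
  have happ : ∀ {p q r : ℤ} (h : p + q = r) (a : A.X p) (b : B.X q),
      Pairing.app μ h a b = μ.mul h a b := fun _ _ _ => rfl
  refine ⟨⟨fun {p q r} h => LinearMap.mk₂ k (fun a b => f h a b) ?_ ?_ ?_ ?_, ?_⟩, ?_⟩
  · intro a a' b
    apply subVal_injective hU
    rw [subVal_add, hf, hf, hf, subVal_add, happ, happ, happ, map_add, LinearMap.add_apply]
  · intro c a b
    apply subVal_injective hU
    rw [subVal_smul, hf, hf, subVal_smul, happ, happ, map_smul, LinearMap.smul_apply]
  · intro a b b'
    apply subVal_injective hU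
    rw [subVal_add, hf, hf, hf, subVal_add, happ, happ, happ, map_add]
  · intro c a b
    apply subVal_injective hU
    rw [subVal_smul, hf, hf, subVal_smul, happ, happ, map_smul]
  · intro p q r p' q' r' h hp hq hr a b
    apply subVal_injective hU
    simp only [LinearMap.mk₂_apply]
    rw [subVal_d, hf, subVal_add, hf, Units.smul_def, subVal_zsmul, hf, subVal_d, subVal_d, happ,
      happ, happ, μ.leibniz h hp hq hr, Units.smul_def]
  · intro p q r h a b
    exact hf h a b

/-- the restriction of a pairing to subcomplexes -/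
noncomputable def subPairing {S : ∀ n : ℤ, A.X n → Prop} {T : ∀ n : ℤ, B.X n → Prop}
    {U : ∀ n : ℤ, C.X n → Prop} (hS : IsSubcomplex A.d S) (hT : IsSubcomplex B.d T)
    (hU : IsSubcomplex C.d U) (μ : Pairing A B C)
    (hμ : ∀ {p q r : ℤ} (h : p + q = r) (a : A.X p) (b : B.X q), S p a → T q b →
      U r (Pairing.app μ h a b)) : Pairing (subCx hS) (subCx hT) (subCx hU) :=
  (exists_subPairing hS hT hU μ hμ).choose

theorem subVal_subPairing {S : ∀ n : ℤ, A.X n → Prop} {T : ∀ n : ℤ, B.X n → Prop}
    {U : ∀ n : ℤ, C.X n → Prop} (hS : IsSubcomplex A.d S) (hT : IsSubcomplex B.d T)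
    (hU : IsSubcomplex C.d U) (μ : Pairing A B C)
    (hμ : ∀ {p q r : ℤ} (h : p + q = r) (a : A.X p) (b : B.X q), S p a → T q b →
      U r (Pairing.app μ h a b)) {p q r : ℤ} (h : p + q = r) (a : (subCx hS).X p)
    (b : (subCx hT).X q) : subVal hU (Pairing.app (subPairing hS hT hU μ hμ) h a b) =
      Pairing.app μ h (subVal hS a) (subVal hT b) :=
  (exists_subPairing hS hT hU μ hμ).choose_spec h a b

variable (D : DGCat.{v, u} k) {O : Type u'} (F : O → D.Obj)
  (S : ∀ (X Y : O) (n : ℤ), (D.Hom (F X) (F Y)).X n → Prop)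

/-- The elements with property S are subcomplexes of the morphism complexes between the objects
F X, which contain the identities and are closed under composition. -/
structure DGCat.IsSub : Prop where
  sub : ∀ X Y : O, IsSubcomplex (D.Hom (F X) (F Y)).d (S X Y)
  comp : ∀ {X Y Z : O} {p q r : ℤ} (h : p + q = r) (g : (D.Hom (F Y) (F Z)).X p)
    (f : (D.Hom (F X) (F Y)).X q), S Y Z p g → S X Y q f → S X Z r (D.cmp h g f)
  one : ∀ X : O, S X X 0 (D.one (F X))

variable {D F S}

/-- The DG category of objects of D with an additional structure: O is the type of these objects,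
F forgets the structure, the morphism complexes are the subcomplexes with the elements S. -/
noncomputable def DGCat.IsSub.toDGCat (h : D.IsSub F S) : DGCat.{v, u'} k where
  Obj := O
  Hom X Y := subCx (h.sub X Y)
  comp X Y Z := subPairing (h.sub Y Z) (h.sub X Y) (h.sub X Z) (D.comp (F X) (F Y) (F Z)) h.comp
  one X := subElt (h.sub X X) (D.one (F X)) (h.one X)
  assoc X Y Z W p q r s t e h₁ h₂ h₃ h₄ a b c := subVal_injective _ _ (by
    rw [subVal_subPairing, subVal_subPairing, subVal_subPairing, subVal_subPairing]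
    exact D.assoc _ _ _ _ h₁ h₂ h₃ h₄ _ _ _)
  one_comp X Y p b := subVal_injective _ _ (by
    rw [subVal_subPairing, subVal_subElt]
    exact D.one_comp _ _ p _)
  comp_one X Y p b := subVal_injective _ _ (by
    rw [subVal_subPairing, subVal_subElt]
    exact D.comp_one _ _ p _)

end Sub

section Complexes

variable (k : Type t) [CommRing k] {C : Type u} [Category.{v} C] [Preadditive C] [Linear k C]

open CochainComplex.HomComplex

/-- the complex of homogeneous maps between two complexes -/
def homCx (F G : CochainComplex C ℤ) : Cx.{v} k where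
  X n := ModuleCat.of k (Cochain F G n)
  d n m := δ_hom k F G n m
  shape n m h := LinearMap.ext fun x => δ_shape n m h x
  d_d n m l x := δ_δ n m l x

/-- composition of homogeneous maps -/
def compCx (F G H : CochainComplex C ℤ) :
    Pairing (homCx k G H) (homCx k F G) (homCx k F H) where
  mul {p q r} h := LinearMap.mk₂ k
    (fun (g : Cochain G H p) (f : Cochain F G q) => f.comp g (show q + p = r by lia))
    (fun _ _ _ => Cochain.comp_add ..) (fun _ _ _ => Cochain.comp_smul ..)
    (fun _ _ _ => Cochain.add_comp ..) (fun _ _ _ => Cochain.smul_comp ..)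
  leibniz {p q r p' q' r'} h hp hq hr a b :=
    δ_comp (F := F) (G := G) (K := H) b a (show q + p = r by lia) q' p' r' hr hq hp

/-- the DG category of complexes of a k-linear category -/
def complexes (C : Type u) [Category.{v} C] [Preadditive C] [Linear k C] :
    DGCat.{v, max u v} k where
  Obj := CochainComplex C ℤ
  Hom F G := homCx k F G
  comp F G H := compCx k F G H
  one F := Cochain.ofHom (𝟙 F)
  assoc X Y Z W p q r s t e h₁ h₂ h₃ h₄ a b c :=
    (Cochain.comp_assoc (F := X) (G := Y) (K := Z) (L := W) c b a (show r + q = t by lia)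
      (show q + p = s by lia) (by lia)).symm
  one_comp X Y _ b := Cochain.comp_id (F := X) (G := Y) b
  comp_one X Y _ b := Cochain.id_comp (F := X) (G := Y) b

end Complexes

end FdDG
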